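import Pool.Agent.Lib.MP_55dccf_gt.Main

set_option autoImplicit false

namespace Pool.Agent.Results.MP_55dccf_gt.NoZTwoPoint

open Topology unitInterval

universe u

/-- `X` is an absolute retract for metrizable spaces: whenever `X` is embedded as a closed subset
in a metrizable space `Y` it is a retract of `Y`. -/
def IsAR (X : Type) [TopologicalSpace X] : Prop :=
  ∀ (Y : Type u) [TopologicalSpace Y] [TopologicalSpace.MetrizableSpace Y] (i : X → Y),
    IsClosedEmbedding i → ∃ r : C(Y, X), ∀ x : X, r (i x) = x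

/-- `x` is a `Z_n`-point: every continuous map from the `n`-cube to `X` can be approximated
arbitrarily closely by continuous maps whose image misses `x`. -/
def IsZPoint {X : Type} [MetricSpace X] (n : ℕ) (x : X) : Prop :=
  ∀ f : C(Fin n → I, X), ∀ ε : ℝ, 0 < ε →
    ∃ g : C(Fin n → I, X), (∀ t, g t ≠ x) ∧ ∀ t, dist (f t) (g t) < ε

/-- `x` is a `Z_∞`-point: a `Z_n`-point for every `n`. -/
def IsZInftyPoint {X : Type} [MetricSpace X] (x : X) : Prop := ∀ n : ℕ, IsZPoint n x

lemma unitInterval_tietze : TietzeExtension.{u, 0} I :=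
  TietzeExtension.of_retract (Y := I) (Z := ℝ) ⟨Subtype.val, continuous_subtype_val⟩
    ⟨Set.projIcc (0 : ℝ) 1 zero_le_one, continuous_projIcc⟩ (by
      ext x
      simp)

lemma isAR_of_retract {X : Type} [TopologicalSpace X]
    (h : ∃ e : C(X, ℕ → I), ∃ r : C(ℕ → I, X), ∀ x : X, r (e x) = x) : IsAR.{u} X := by
  intro Y _ _ i hi
  obtain ⟨e, r, hr⟩ := h
  have : ∀ _ : ℕ, TietzeExtension.{u, 0} I := fun _ => unitInterval_tietze
  obtain ⟨g, hg⟩ := e.exists_extension hi
  refine ⟨r.comp g, fun x => ?_⟩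
  have h1 : g (i x) = e x := DFunLike.congr_fun hg x
  rw [ContinuousMap.comp_apply, h1, hr]

/-- **Negative answer to Q1.** There is a compact AR `X` such that every point of `X × [0,1]` is
a `Z_∞`-point, yet no point of `X` is a `Z_2`-point. -/
theorem result : ∃ (X : Type) (_ : MetricSpace X) (_ : CompactSpace X) (_ : Nonempty X),
    IsAR.{u} X ∧ (∀ p : X × I, IsZInftyPoint p) ∧ ∀ x : X, ¬ IsZPoint 2 x := by
  have h := Pool.MP55.main
  push Not at h
  obtain ⟨X, hm, hc, hr, hz, hn⟩ := h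
  have hne : Nonempty X := by
    obtain ⟨e, r, -⟩ := hr
    exact ⟨r (fun _ => 0)⟩
  refine ⟨X, hm, hc, hne, isAR_of_retract hr, fun p n f ε hε => hz p n f ε hε, ?_⟩
  intro x hx
  obtain ⟨f, ε, hε, hf⟩ := hn x
  obtain ⟨g, hg1, hg2⟩ := hx f ε hε
  obtain ⟨t, ht⟩ := hf g hg1
  exact absurd (hg2 t) (not_lt.2 ht)

end Pool.Agent.Results.MP_55dccf_gt.NoZTwoPoint
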